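import Mathlib
import Pool.Agent.H383.LinIndep

/-!
# Coordinates on the span of the square roots of the squarefree numbers

`rt s = √s` for squarefree `s`; `co : ℝ → (SF →₀ ℚ)` is a linear extension of the coordinate map of
the span `E` of the `rt s`; `sg ψ` multiplies the coordinate at `s` by `ψ s`.
-/

set_option autoImplicit false
set_option linter.unusedSimpArgs false

open Finset

namespace Pool.Agent.H716MQ

/-- squarefree natural numbers -/
abbrev SF := {s : ℕ // Squarefree s}

/-- square roots of squarefree numbers -/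
noncomputable def rt (s : SF) : ℝ := √((s : ℕ) : ℝ)

theorem rt_indep : LinearIndependent ℚ rt := Pool.Agent.H383.Gauss.sf_indep

/-- the span of the square roots -/
noncomputable def E : Submodule ℚ ℝ := Submodule.span ℚ (Set.range rt)

theorem exists_co : ∃ f : ℝ →ₗ[ℚ] (SF →₀ ℚ), ∀ s, f (rt s) = Finsupp.single s 1 := by
  obtain ⟨g, hg⟩ := LinearMap.exists_extend (rt_indep.repr : Submodule.span ℚ (Set.range rt) →ₗ[ℚ] (SF →₀ ℚ))
  refine ⟨g, fun s => ?_⟩
  have h1 := LinearMap.congr_fun hg ⟨rt s, Submodule.subset_span ⟨s, rfl⟩⟩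
  simp only [LinearMap.comp_apply, Submodule.subtype_apply] at h1
  rw [h1]
  exact rt_indep.repr_eq_single s _ rfl

/-- coordinates -/
noncomputable def co : ℝ →ₗ[ℚ] (SF →₀ ℚ) := Classical.choose exists_co

theorem co_rt (s : SF) : co (rt s) = Finsupp.single s 1 := Classical.choose_spec exists_co s

/-- linear combination of square roots -/
noncomputable def lc : (SF →₀ ℚ) →ₗ[ℚ] ℝ := Finsupp.linearCombination ℚ rt

theorem lc_mem (f : SF →₀ ℚ) : lc f ∈ E := by
  unfold lc E
  rw [← Finsupp.range_linearCombination]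
  exact ⟨f, rfl⟩

theorem co_lc (f : SF →₀ ℚ) : co (lc f) = f := by
  have : co.comp lc = LinearMap.id := by
    apply Finsupp.lhom_ext'
    intro s
    apply LinearMap.ext_ring
    simp [lc, co_rt]
  exact LinearMap.congr_fun this f

theorem exists_lc {x : ℝ} (hx : x ∈ E) : ∃ f, lc f = x := by
  unfold E at hx
  rw [← Finsupp.range_linearCombination] at hx
  exact hx

theorem lc_co {x : ℝ} (hx : x ∈ E) : lc (co x) = x := by
  obtain ⟨f, rfl⟩ := exists_lc hx
  rw [co_lc]

theorem ext_co {x y : ℝ} (hx : x ∈ E) (hy : y ∈ E) (h : ∀ s, co x s = co y s) : x = y := by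
  rw [← lc_co hx, ← lc_co hy]
  congr 1
  exact Finsupp.ext h

theorem rt_mem (s : SF) : rt s ∈ E := Submodule.subset_span ⟨s, rfl⟩

/-- the product class of two squarefree numbers -/
def star (s t : SF) : SF :=
  ⟨((s : ℕ) / Nat.gcd s t) * ((t : ℕ) / Nat.gcd s t), by
    have hs := s.2
    have ht := t.2
    have hs0 : (s : ℕ) ≠ 0 := hs.ne_zero
    have hg : 0 < Nat.gcd s t := Nat.gcd_pos_of_pos_left _ (Nat.pos_of_ne_zero hs0)
    have hco : Nat.Coprime ((s : ℕ) / Nat.gcd s t) ((t : ℕ) / Nat.gcd s t) := Nat.coprime_div_gcd_div_gcd hg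
    rw [Nat.squarefree_mul hco]
    exact ⟨hs.squarefree_of_dvd (Nat.div_dvd_of_dvd (Nat.gcd_dvd_left _ _)),
      ht.squarefree_of_dvd (Nat.div_dvd_of_dvd (Nat.gcd_dvd_right _ _))⟩⟩

theorem star_val (s t : SF) : ((star s t : SF) : ℕ) * (Nat.gcd s t) ^ 2 = s * t := by
  unfold star
  simp only
  have h1 : (s : ℕ) / Nat.gcd s t * Nat.gcd s t = s := Nat.div_mul_cancel (Nat.gcd_dvd_left _ _)
  have h2 : (t : ℕ) / Nat.gcd s t * Nat.gcd s t = t := Nat.div_mul_cancel (Nat.gcd_dvd_right _ _)
  calc (s : ℕ) / Nat.gcd s t * ((t : ℕ) / Nat.gcd s t) * (Nat.gcd s t) ^ 2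
      = ((s : ℕ) / Nat.gcd s t * Nat.gcd s t) * ((t : ℕ) / Nat.gcd s t * Nat.gcd s t) := by ring
    _ = s * t := by rw [h1, h2]

theorem sf_pos (s : SF) : 0 < (s : ℕ) := Nat.pos_of_ne_zero s.2.ne_zero

theorem rt_mul (s t : SF) : rt s * rt t = (Nat.gcd s t : ℝ) * rt (star s t) := by
  unfold rt
  rw [← Real.sqrt_mul (Nat.cast_nonneg _)]
  have h := star_val s t
  have h' : ((s : ℕ) : ℝ) * ((t : ℕ) : ℝ) = (Nat.gcd s t : ℝ) ^ 2 * ((star s t : SF) : ℕ) := by
    rw [mul_comm (_ ^ 2)]; exact_mod_cast h.symm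
  rw [h', Real.sqrt_mul (by positivity), Real.sqrt_sq (by positivity)]

theorem star_dvd_iff (s t : SF) {p : ℕ} (hp : p.Prime) :
    p ∣ ((star s t : SF) : ℕ) ↔ ¬ (p ∣ (s : ℕ) ↔ p ∣ (t : ℕ)) := by
  have hs := s.2
  have ht := t.2
  have hs0 : (s : ℕ) ≠ 0 := hs.ne_zero
  have hg : 0 < Nat.gcd s t := Nat.gcd_pos_of_pos_left _ (Nat.pos_of_ne_zero hs0)
  have h1 : (s : ℕ) / Nat.gcd s t * Nat.gcd s t = s := Nat.div_mul_cancel (Nat.gcd_dvd_left _ _)
  have h2 : (t : ℕ) / Nat.gcd s t * Nat.gcd s t = t := Nat.div_mul_cancel (Nat.gcd_dvd_right _ _)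
  have hval : ((star s t : SF) : ℕ) = ((s : ℕ) / Nat.gcd s t) * ((t : ℕ) / Nat.gcd s t) := rfl
  rw [hval, hp.dvd_mul]
  have key : ∀ (a b : ℕ), Squarefree (a * b) → p ∣ a → ¬ p ∣ b := by
    intro a b hab ha hb
    have : p * p ∣ a * b := Nat.mul_dvd_mul ha hb
    exact hp.one_lt.ne' (by simpa using hab p this)
  by_cases hps : p ∣ (s : ℕ) <;> by_cases hpt : p ∣ (t : ℕ)
  · simp only [hps, hpt, not_true_eq_false, iff_false]
    have hpg : p ∣ Nat.gcd s t := Nat.dvd_gcd hps hpt
    rintro (h | h)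
    · exact key _ _ (by rw [h1]; exact hs) h hpg
    · exact key _ _ (by rw [h2]; exact ht) h hpg
  · simp only [hps, hpt, iff_false, not_true_eq_false, not_false_eq_true, iff_true]
    left
    have : p ∣ (s : ℕ) / Nat.gcd s t * Nat.gcd s t := by rw [h1]; exact hps
    rcases hp.dvd_mul.mp this with h | h
    · exact h
    · exact absurd (h.trans (Nat.gcd_dvd_right _ _)) hpt
  · simp only [hps, hpt, false_iff, not_true_eq_false, not_false_eq_true, iff_true]
    right
    have : p ∣ (t : ℕ) / Nat.gcd s t * Nat.gcd s t := by rw [h2]; exact hpt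
    rcases hp.dvd_mul.mp this with h | h
    · exact h
    · exact absurd (h.trans (Nat.gcd_dvd_left _ _)) hps
  · simp only [hps, hpt, not_true_eq_false, iff_false]
    rintro (h | h)
    · exact hps (h.trans (Nat.div_dvd_of_dvd (Nat.gcd_dvd_left _ _)))
    · exact hpt (h.trans (Nat.div_dvd_of_dvd (Nat.gcd_dvd_right _ _)))

/-- squarefree numbers are determined by their prime divisors -/
theorem sf_ext {s t : SF} (h : ∀ p : ℕ, p.Prime → (p ∣ (s : ℕ) ↔ p ∣ (t : ℕ))) : s = t := by
  apply Subtype.ext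
  exact (Nat.Squarefree.ext_iff s.2 t.2).mpr h

theorem star_comm (s t : SF) : star s t = star t s := by
  apply sf_ext
  intro p hp
  rw [star_dvd_iff _ _ hp, star_dvd_iff _ _ hp]
  tauto

theorem star_self_left (s t : SF) : star s (star s t) = t := by
  apply sf_ext
  intro p hp
  rw [star_dvd_iff _ _ hp, star_dvd_iff _ _ hp]
  tauto

/-- the squarefree number one -/
def one' : SF := ⟨1, squarefree_one⟩

theorem rt_one : rt one' = 1 := by simp [rt, one']

theorem star_self (s : SF) : star s s = one' := by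
  apply sf_ext
  intro p hp
  rw [star_dvd_iff _ _ hp]
  simp only [not_true_eq_false, false_iff]
  intro h
  exact hp.one_lt.ne' (Nat.dvd_one.mp h)

theorem star_eq_one {s t : SF} : star s t = one' ↔ s = t := by
  constructor
  · intro h
    have := star_self_left s t
    rw [h] at this
    rw [← this]
    apply sf_ext
    intro p hp
    rw [star_dvd_iff _ _ hp]
    have : ¬ p ∣ ((one' : SF) : ℕ) := fun h => hp.one_lt.ne' (Nat.dvd_one.mp h)
    tauto
  · rintro rfl; exact star_self s

/-- the span of the square roots of a class of squarefree numbers -/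
noncomputable def V (Q : SF → Prop) : Submodule ℚ ℝ := Submodule.span ℚ (rt '' {s | Q s})

theorem V_le_E (Q : SF → Prop) : V Q ≤ E :=
  Submodule.span_mono (Set.image_subset_range _ _)

theorem mem_V_iff {Q : SF → Prop} {x : ℝ} : x ∈ V Q ↔ x ∈ E ∧ ∀ s, co x s ≠ 0 → Q s := by
  constructor
  · intro hx
    refine ⟨V_le_E Q hx, ?_⟩
    unfold V at hx
    rw [Finsupp.mem_span_image_iff_linearCombination] at hx
    obtain ⟨f, hf, hfx⟩ := hx
    intro s hs
    have : co x = f := by rw [← hfx]; exact co_lc f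
    rw [this] at hs
    rw [Finsupp.mem_supported] at hf
    exact hf (Finsupp.mem_support_iff.mpr hs)
  · rintro ⟨hx, h⟩
    unfold V
    rw [Finsupp.mem_span_image_iff_linearCombination]
    refine ⟨co x, ?_, lc_co hx⟩
    rw [Finsupp.mem_supported]
    intro s hs
    exact h s (Finsupp.mem_support_iff.mp hs)

theorem V_mul {Q : SF → Prop} (hQ : ∀ s t, Q s → Q t → Q (star s t)) {x y : ℝ}
    (hx : x ∈ V Q) (hy : y ∈ V Q) : x * y ∈ V Q := by
  unfold V at hx hy
  induction hx using Submodule.span_induction with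
  | mem x hx =>
    obtain ⟨s, hs, rfl⟩ := hx
    induction hy using Submodule.span_induction with
    | mem y hy =>
      obtain ⟨t, ht, rfl⟩ := hy
      rw [rt_mul]
      have : (Nat.gcd s t : ℝ) * rt (star s t) = (Nat.gcd s t : ℚ) • rt (star s t) := by
        rw [Rat.smul_def]; push_cast; rfl
      rw [this]
      exact (V Q).smul_mem _ (Submodule.subset_span ⟨_, hQ s t hs ht, rfl⟩)
    | zero => rw [mul_zero]; exact (V Q).zero_mem
    | add a b _ _ ha hb => rw [mul_add]; exact (V Q).add_mem ha hb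
    | smul c a _ ha => rw [mul_smul_comm]; exact (V Q).smul_mem _ ha
  | zero => rw [zero_mul]; exact (V Q).zero_mem
  | add a b _ _ ha hb => rw [add_mul]; exact (V Q).add_mem ha hb
  | smul c a _ ha => rw [smul_mul_assoc]; exact (V Q).smul_mem _ ha

theorem V_true : V (fun _ => True) = E := by
  unfold V E
  simp [Set.image_univ]

theorem E_mul {x y : ℝ} (hx : x ∈ E) (hy : y ∈ E) : x * y ∈ E := by
  rw [← V_true] at *
  exact V_mul (fun _ _ _ _ => trivial) hx hy

theorem E_one : (1 : ℝ) ∈ E := by rw [← rt_one]; exact rt_mem _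

theorem E_pow {x : ℝ} (hx : x ∈ E) (n : ℕ) : x ^ n ∈ E := by
  induction n with
  | zero => rw [pow_zero]; exact E_one
  | succ n ih => rw [pow_succ]; exact E_mul ih hx

theorem E_int (z : ℤ) : (z : ℝ) ∈ E := by
  have : (z : ℝ) = (z : ℚ) • (1 : ℝ) := by rw [Rat.smul_def]; simp
  rw [this]; exact E.smul_mem _ E_one

theorem co_one : co 1 = Finsupp.single one' 1 := by rw [← rt_one, co_rt]

/-- multiplication of coordinates by signs -/
noncomputable def sg (ψ : SF → ℚ) : ℝ →ₗ[ℚ] ℝ :=
  (Finsupp.linearCombination ℚ (fun s => ψ s • rt s)).comp co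

theorem sg_rt (ψ : SF → ℚ) (s : SF) : sg ψ (rt s) = ψ s • rt s := by
  simp [sg, co_rt]

theorem sg_mem (ψ : SF → ℚ) (x : ℝ) : sg ψ x ∈ E := by
  unfold sg
  rw [LinearMap.comp_apply]
  have h : Finsupp.linearCombination ℚ (fun s => ψ s • rt s) (co x) ∈
      Submodule.span ℚ (Set.range (fun s => ψ s • rt s)) := by
    rw [← Finsupp.range_linearCombination]; exact ⟨_, rfl⟩
  refine (Submodule.span_le.mpr ?_) h
  rintro _ ⟨s, rfl⟩
  exact E.smul_mem _ (rt_mem s)

theorem co_sg (ψ : SF → ℚ) (x : ℝ) (s : SF) : co (sg ψ x) s = ψ s * co x s := by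
  unfold sg
  rw [LinearMap.comp_apply]
  generalize co x = f
  have : ∀ f : SF →₀ ℚ, co (Finsupp.linearCombination ℚ (fun s => ψ s • rt s) f) s = ψ s * f s := by
    intro f
    induction f using Finsupp.induction_linear with
    | zero => simp
    | add f g hf hg => rw [map_add, map_add, Finsupp.add_apply, hf, hg, Finsupp.add_apply]; ring
    | single a b =>
      rw [Finsupp.linearCombination_single, map_smul, map_smul, co_rt]
      by_cases h : a = s
      · subst h; simp [mul_comm]
      · simp [Finsupp.single_eq_of_ne (Ne.symm h), h]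
  exact this f

/-- characters with values ±1 -/
structure IsChar (ψ : SF → ℚ) : Prop where
  sq : ∀ s, ψ s = 1 ∨ ψ s = -1
  mul : ∀ s t, ψ (star s t) = ψ s * ψ t

theorem IsChar.one {ψ : SF → ℚ} (h : IsChar ψ) : ψ one' = 1 := by
  have h1 := h.mul one' one'
  rw [star_self] at h1
  rcases h.sq one' with h2 | h2
  · exact h2
  · rw [h2] at h1; norm_num at h1

theorem sg_mul {ψ : SF → ℚ} (hψ : IsChar ψ) {x y : ℝ} (hx : x ∈ E) (hy : y ∈ E) :
    sg ψ (x * y) = sg ψ x * sg ψ y := by
  unfold E at hx hy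
  induction hx using Submodule.span_induction with
  | mem x hx =>
    obtain ⟨s, rfl⟩ := hx
    induction hy using Submodule.span_induction with
    | mem y hy =>
      obtain ⟨t, rfl⟩ := hy
      rw [rt_mul]
      have h1 : (Nat.gcd s t : ℝ) * rt (star s t) = (Nat.gcd s t : ℚ) • rt (star s t) := by
        rw [Rat.smul_def]; push_cast; rfl
      rw [h1, map_smul, sg_rt, sg_rt, sg_rt, hψ.mul]
      rw [smul_mul_smul_comm, rt_mul, h1]
      rw [smul_smul, smul_smul]
      congr 1; ring
    | zero => simp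
    | add a b _ _ ha hb => rw [mul_add, map_add, map_add, mul_add, ha, hb]
    | smul c a _ ha => rw [mul_smul_comm, map_smul, map_smul, mul_smul_comm, ha]
  | zero => simp
  | add a b _ _ ha hb => rw [add_mul, map_add, map_add, add_mul, ha, hb]
  | smul c a _ ha => rw [smul_mul_assoc, map_smul, map_smul, smul_mul_assoc, ha]

theorem sg_one {ψ : SF → ℚ} (hψ : IsChar ψ) : sg ψ 1 = 1 := by
  rw [← rt_one, sg_rt, hψ.one, one_smul]

theorem sg_pow {ψ : SF → ℚ} (hψ : IsChar ψ) {x : ℝ} (hx : x ∈ E) (n : ℕ) :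
    sg ψ (x ^ n) = sg ψ x ^ n := by
  induction n with
  | zero => rw [pow_zero, pow_zero, sg_one hψ]
  | succ n ih => rw [pow_succ, pow_succ, sg_mul hψ (E_pow hx n) hx, ih]

theorem sg_isIntegral {ψ : SF → ℚ} (hψ : IsChar ψ) {x : ℝ} (hx : x ∈ E) (hi : IsIntegral ℤ x) :
    IsIntegral ℤ (sg ψ x) := by
  obtain ⟨p, hp, hpx⟩ := hi
  refine ⟨p, hp, ?_⟩
  have key : ∀ q : Polynomial ℤ, sg ψ (Polynomial.aeval x q) = Polynomial.aeval (sg ψ x) q := by
    intro q
    induction q using Polynomial.induction_on' with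
    | add a b ha hb => rw [map_add, map_add, map_add, ha, hb]
    | monomial n a =>
      rw [Polynomial.aeval_monomial, Polynomial.aeval_monomial]
      have e1 : ∀ y : ℝ, (algebraMap ℤ ℝ) a * y = (a : ℚ) • y := by
        intro y; rw [Rat.smul_def]; simp
      rw [e1, e1, map_smul, sg_pow hψ hx]
  have h2 := key p
  have h3 : Polynomial.aeval x p = 0 := hpx
  rw [h3, map_zero] at h2
  exact h2.symm

/-- the trace functional: the coordinate at one -/
noncomputable def tr (x : ℝ) : ℚ := co x one'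

theorem tr_add (x y : ℝ) : tr (x + y) = tr x + tr y := by simp [tr]

theorem tr_sg {ψ : SF → ℚ} (hψ : IsChar ψ) (x : ℝ) : tr (sg ψ x) = tr x := by
  unfold tr; rw [co_sg, hψ.one, one_mul]

theorem co_rt_mul (p : SF) {x : ℝ} (hx : x ∈ E) (s : SF) :
    co (rt p * x) s = (Nat.gcd p (star p s) : ℚ) * co x (star p s) := by
  unfold E at hx
  induction hx using Submodule.span_induction with
  | mem x hx =>
    obtain ⟨t, rfl⟩ := hx
    rw [rt_mul]
    have h1 : (Nat.gcd p t : ℝ) * rt (star p t) = (Nat.gcd p t : ℚ) • rt (star p t) := by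
      rw [Rat.smul_def]; push_cast; rfl
    rw [h1, map_smul, co_rt, co_rt]
    by_cases h : star p t = s
    · have h' : star p s = t := by rw [← h, star_self_left]
      rw [h']
      simp [h]
    · have h' : t ≠ star p s := by
        intro hh; apply h; rw [hh, star_self_left]
      simp [Finsupp.single_eq_of_ne (Ne.symm h), Finsupp.single_eq_of_ne (Ne.symm h')]
  | zero => simp
  | add a b _ _ ha hb => rw [mul_add, map_add, Finsupp.add_apply, ha, hb, map_add, Finsupp.add_apply]; ring
  | smul c a _ ha => rw [mul_smul_comm, map_smul, Finsupp.smul_apply, ha, map_smul, Finsupp.smul_apply]; simp only [smul_eq_mul]; ring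

theorem tr_sq {x : ℝ} (hx : x ∈ E) : tr (x ^ 2) = ∑ s ∈ (co x).support, (co x s) ^ 2 * ((s : ℕ) : ℚ) := by
  have h1 : ∀ y ∈ E, tr (x * y) = ∑ s ∈ (co x).support, co x s * co y s * ((s : ℕ) : ℚ) := by
    intro y hy
    have e : x = ∑ s ∈ (co x).support, (co x s) • rt s := by
      conv_lhs => rw [← lc_co hx]
      rfl
    conv_lhs => rw [e]
    rw [Finset.sum_mul]
    unfold tr
    rw [map_sum, Finsupp.finsetSum_apply]
    apply Finset.sum_congr rfl
    intro s _
    rw [smul_mul_assoc, map_smul, Finsupp.smul_apply, co_rt_mul s hy]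
    have : star s one' = s := by
      apply sf_ext
      intro p hp
      rw [star_dvd_iff _ _ hp]
      have : ¬ p ∣ ((one' : SF) : ℕ) := fun h => hp.one_lt.ne' (Nat.dvd_one.mp h)
      tauto
    rw [this, Nat.gcd_self]
    simp only [smul_eq_mul]; ring
  rw [sq, h1 x hx]
  apply Finset.sum_congr rfl
  intro s _; ring

theorem tr_sq_nonneg {x : ℝ} (hx : x ∈ E) : 0 ≤ tr (x ^ 2) := by
  rw [tr_sq hx]
  apply Finset.sum_nonneg
  intro s _; positivity

theorem co_sq_le {x : ℝ} (hx : x ∈ E) (s : SF) : (co x s) ^ 2 * ((s : ℕ) : ℚ) ≤ tr (x ^ 2) := by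
  rw [tr_sq hx]
  by_cases h : s ∈ (co x).support
  · exact Finset.single_le_sum (f := fun s : SF => (co x s) ^ 2 * ((s : ℕ) : ℚ)) (fun i _ => by positivity) h
  · rw [Finsupp.notMem_support_iff.mp h]
    simp only [ne_eq, OfNat.ofNat_ne_zero, not_false_eq_true, zero_pow, zero_mul]
    apply Finset.sum_nonneg
    intro s _; positivity

/-- sign character of a finite set of primes -/
noncomputable def chA (A : Finset ℕ) (s : SF) : ℚ := ∏ p ∈ A, (if p ∣ (s : ℕ) then -1 else 1)

theorem chA_isChar {A : Finset ℕ} (hA : ∀ p ∈ A, p.Prime) : IsChar (chA A) := by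
  constructor
  · intro s
    unfold chA
    induction A using Finset.induction_on with
    | empty => left; simp
    | insert a A ha ih =>
      rw [Finset.prod_insert ha]
      rcases ih (fun p hp => hA p (Finset.mem_insert_of_mem hp)) with h | h <;> rw [h] <;> split_ifs <;> simp
  · intro s t
    unfold chA
    rw [← Finset.prod_mul_distrib]
    apply Finset.prod_congr rfl
    intro p hp
    have := star_dvd_iff s t (hA p hp)
    by_cases h1 : p ∣ (s : ℕ) <;> by_cases h2 : p ∣ (t : ℕ) <;> simp [h1, h2, this]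

end Pool.Agent.H716MQ
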