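import Pool.Agent.H716MQ.Basic

set_option autoImplicit false
open Finset
namespace Pool.Agent.H716MQ

/-- `(1 + √s)/2` -/
noncomputable def th (s : SF) : ℝ := (1 + rt s) / 2

/-- the ring generated by the `th s`, `s ≡ 1 mod 4` -/
noncomputable def A4 : Subalgebra ℤ ℝ := Algebra.adjoin ℤ (th '' {s : SF | (s : ℕ) % 4 = 1})

theorem rt_sq (s : SF) : rt s ^ 2 = ((s : ℕ) : ℝ) := by
  unfold rt
  rw [Real.sq_sqrt (Nat.cast_nonneg _)]

theorem rt_int (s : SF) : IsIntegral ℤ (rt s) := by
  have : IsIntegral ℤ (rt s ^ 2) := by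
    rw [rt_sq]
    have := isIntegral_algebraMap (R := ℤ) (A := ℝ) (x := ((s : ℕ) : ℤ))
    simpa using this
  exact this.of_pow (by norm_num)

theorem th_sq {s : SF} {j : ℕ} (hj : (s : ℕ) = 4 * j + 1) : th s ^ 2 = th s + j := by
  have h := rt_sq s
  rw [hj] at h
  push_cast at h
  unfold th
  linear_combination h / 4

theorem int_int (n : ℤ) : IsIntegral ℤ (n : ℝ) := by
  have := isIntegral_algebraMap (R := ℤ) (A := ℝ) (x := n)
  simpa using this

theorem nat_int (n : ℕ) : IsIntegral ℤ (n : ℝ) := by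
  have := int_int (n : ℤ)
  simpa using this

theorem th_int {s : SF} (hs : (s : ℕ) % 4 = 1) : IsIntegral ℤ (th s) := by
  obtain ⟨j, hj⟩ : ∃ j, (s : ℕ) = 4 * j + 1 := ⟨(s : ℕ) / 4, by omega⟩
  have h := th_sq hj
  refine ⟨Polynomial.X ^ 2 - Polynomial.X - Polynomial.C (j : ℤ), ?_, ?_⟩
  · have : (Polynomial.X ^ 2 - Polynomial.X - Polynomial.C (j : ℤ) : Polynomial ℤ) =
        Polynomial.X ^ 2 - (Polynomial.X + Polynomial.C (j : ℤ)) := by ring
    rw [this]
    apply Polynomial.monic_X_pow_sub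
    rw [Polynomial.degree_X_add_C]
    norm_num
  · simp only [Polynomial.eval₂_sub, Polynomial.eval₂_pow, Polynomial.eval₂_X,
      Polynomial.eval₂_C]
    rw [h]; simp

theorem A4_int {y : ℝ} (hy : y ∈ A4) : IsIntegral ℤ y := by
  have : A4 ≤ integralClosure ℤ ℝ := by
    unfold A4
    rw [Algebra.adjoin_le_iff]
    rintro _ ⟨s, hs, rfl⟩
    exact th_int hs
  exact this hy

theorem intmem (n : ℤ) : (n : ℝ) ∈ A4 := by
  have := A4.algebraMap_mem n
  simpa using this

theorem natmem (n : ℕ) : (n : ℝ) ∈ A4 := by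
  have := intmem n
  simpa using this

theorem th_mem {s : SF} (hs : (s : ℕ) % 4 = 1) : th s ∈ A4 :=
  Algebra.subset_adjoin ⟨s, hs, rfl⟩

theorem even_int (n : ℤ) : ∃ m : ℤ, n ^ 4 - n = 2 * m := by
  rcases Int.even_or_odd' n with ⟨k, h | h⟩
  · exact ⟨8 * k ^ 4 - k, by rw [h]; ring⟩
  · exact ⟨8 * k ^ 4 + 16 * k ^ 3 + 12 * k ^ 2 + 3 * k, by rw [h]; ring⟩

theorem A4_frob {y : ℝ} (hy : y ∈ A4) : ∃ w ∈ A4, y ^ 4 - y = 2 * w := by
  unfold A4 at hy
  induction hy using Algebra.adjoin_induction with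
  | mem y hy =>
    obtain ⟨s, hs, rfl⟩ := hy
    have hs' : (s : ℕ) % 4 = 1 := hs
    obtain ⟨j, hj⟩ : ∃ j, (s : ℕ) = 4 * j + 1 := ⟨(s : ℕ) / 4, by omega⟩
    have h := th_sq hj
    obtain ⟨m, hm⟩ : ∃ m : ℕ, j * (j + 1) = 2 * m := by
      obtain ⟨m, hm⟩ := Nat.even_mul_succ_self j
      exact ⟨m, by omega⟩
    have hm' : (j : ℝ) * (j + 1) = 2 * m := by exact_mod_cast hm
    refine ⟨j * th s + m, A4.add_mem (A4.mul_mem (natmem _) (th_mem hs')) (natmem _), ?_⟩
    have h4 : th s ^ 4 = (th s + j) ^ 2 := by rw [← h]; ring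
    rw [h4]
    linear_combination h + hm'
  | algebraMap n =>
    obtain ⟨m, hm⟩ := even_int n
    refine ⟨m, intmem m, ?_⟩
    have : ((n : ℝ)) ^ 4 - n = 2 * m := by exact_mod_cast hm
    simpa using this
  | add a b ha hb iha ihb =>
    obtain ⟨wa, ha', ea⟩ := iha
    obtain ⟨wb, hb', eb⟩ := ihb
    have ha : a ∈ A4 := ha
    have hb : b ∈ A4 := hb
    refine ⟨wa + wb + (2 * (a ^ 3 * b) + 3 * (a ^ 2 * b ^ 2) + 2 * (a * b ^ 3)), ?_, ?_⟩
    · have h2 : (2 : ℝ) ∈ A4 := by have := natmem 2; simpa using this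
      have h3 : (3 : ℝ) ∈ A4 := by have := natmem 3; simpa using this
      exact A4.add_mem (A4.add_mem ha' hb') (A4.add_mem (A4.add_mem
        (A4.mul_mem h2 (A4.mul_mem (A4.pow_mem ha 3) hb))
        (A4.mul_mem h3 (A4.mul_mem (A4.pow_mem ha 2) (A4.pow_mem hb 2))))
        (A4.mul_mem h2 (A4.mul_mem ha (A4.pow_mem hb 3))))
    · linear_combination ea + eb
  | mul a b ha hb iha ihb =>
    obtain ⟨wa, ha', ea⟩ := iha
    obtain ⟨wb, hb', eb⟩ := ihb
    have ha : a ∈ A4 := ha
    have hb : b ∈ A4 := hb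
    refine ⟨a * wb + b * wa + 2 * (wa * wb), ?_, ?_⟩
    · have h2 : (2 : ℝ) ∈ A4 := by have := natmem 2; simpa using this
      exact A4.add_mem (A4.add_mem (A4.mul_mem ha hb') (A4.mul_mem hb ha'))
        (A4.mul_mem h2 (A4.mul_mem ha' hb'))
    · have e1 : a ^ 4 = a + 2 * wa := by linear_combination ea
      have e2 : b ^ 4 = b + 2 * wb := by linear_combination eb
      rw [mul_pow, e1, e2]; ring

/-- supports used in the induction -/
def QP (P : Finset ℕ) (s : SF) : Prop := (s : ℕ) % 4 = 1 ∧ ∀ p : ℕ, p.Prime → p ∣ (s : ℕ) → p ∈ P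

theorem star_mod4 {s t : SF} (hs : (s : ℕ) % 4 = 1) (ht : (t : ℕ) % 4 = 1) :
    ((star s t : SF) : ℕ) % 4 = 1 := by
  have h := star_val s t
  have hodd : Nat.gcd s t % 2 = 1 := by
    have h1 : Nat.gcd s t ∣ (s : ℕ) := Nat.gcd_dvd_left _ _
    by_contra hc
    have h2 : 2 ∣ Nat.gcd s t := by omega
    have h3 : 2 ∣ (s : ℕ) := h2.trans h1
    omega
  have hsq : (Nat.gcd s t) ^ 2 % 4 = 1 := by
    rw [Nat.pow_mod]
    have : Nat.gcd s t % 4 = 1 ∨ Nat.gcd s t % 4 = 3 := by omega
    rcases this with h | h <;> rw [h]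
  have h2 : (((star s t : SF) : ℕ) * (Nat.gcd s t) ^ 2) % 4 = ((star s t : SF) : ℕ) % 4 := by
    rw [Nat.mul_mod, hsq, mul_one, Nat.mod_mod]
  rw [← h2, h, Nat.mul_mod, hs, ht]

theorem odd_mul_mem {n : ℕ} {y : ℝ} (h : y ∈ A4) : (n : ℝ) * y ∈ A4 := A4.mul_mem (natmem n) h

theorem main_ind (P : Finset ℕ) (hP : ∀ p ∈ P, p.Prime) : ∀ x : ℝ, IsIntegral ℤ x → x ∈ V (QP P) →
    ∃ N : ℕ, N % 2 = 1 ∧ (N : ℝ) * x ∈ A4 := by
  classical
  induction P using Finset.induction_on with
  | empty =>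
    intro x hi hx
    rw [mem_V_iff] at hx
    have h1 : x = (co x one' : ℝ) := by
      conv_lhs => rw [← lc_co hx.1]
      have : co x = Finsupp.single one' (co x one') := by
        ext s
        by_cases h : s = one'
        · subst h; simp
        · rw [Finsupp.single_eq_of_ne h]
          by_contra hc
          have h2 := (hx.2 s hc).2
          apply h
          apply sf_ext
          intro p hp
          constructor
          · intro hps
            exact absurd (h2 p hp hps) (by simp)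
          · intro hps
            exact absurd (Nat.dvd_one.mp hps) hp.one_lt.ne'
      rw [this]
      simp [lc, rt_one, Rat.smul_def]
    have h2 : IsIntegral ℤ (co x one') := by
      rw [h1] at hi
      have : IsIntegral ℤ (algebraMap ℚ ℝ (co x one')) := by simpa [← h1] using hi
      exact (isIntegral_algebraMap_iff (algebraMap ℚ ℝ).injective).1 this
    obtain ⟨n, hn⟩ := (IsIntegrallyClosed.isIntegral_iff (R := ℤ) (K := ℚ)).1 h2
    refine ⟨1, rfl, ?_⟩
    rw [h1, ← hn]
    simpa using intmem n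
  | insert q P hq ih =>
    have ih := ih (fun p hp => hP p (mem_insert_of_mem hp))
    have hqp : q.Prime := hP q (mem_insert_self _ _)
    intro x hi hx
    by_cases hall : ∀ s, co x s ≠ 0 → ¬ q ∣ (s : ℕ)
    · apply ih x hi
      rw [mem_V_iff] at hx ⊢
      refine ⟨hx.1, fun s hs => ⟨(hx.2 s hs).1, fun p hp hps => ?_⟩⟩
      rcases mem_insert.1 ((hx.2 s hs).2 p hp hps) with h | h
      · subst h; exact absurd hps (hall s hs)
      · exact h
    · push Not at hall
      obtain ⟨δ, hδ0, hqδ⟩ := hall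
      have hxE : x ∈ E := V_le_E _ hx
      have hxs : ∀ s, co x s ≠ 0 → QP (insert q P) s := (mem_V_iff.1 hx).2
      have hδ : QP (insert q P) δ := hxs δ hδ0
      set σ := sg (chA {q}) with hσ
      have hch : IsChar (chA {q}) := chA_isChar (by simpa using hqp)
      have hchv : ∀ s, chA {q} s = if q ∣ (s : ℕ) then -1 else 1 := by
        intro s; simp [chA]
      have hσi : IsIntegral ℤ (σ x) := sg_isIntegral hch hxE hi
      have hσE : σ x ∈ E := sg_mem _ _
      -- `β = √δ (x - σ x)`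
      set β := rt δ * (x - σ x) with hβ
      have hβi : IsIntegral ℤ β := (rt_int δ).mul (hi.sub hσi)
      have hw : x - σ x ∈ E := E.sub_mem hxE hσE
      have hcow : ∀ s, co (x - σ x) s = if q ∣ (s : ℕ) then 2 * co x s else 0 := by
        intro s
        rw [map_sub, Finsupp.sub_apply, co_sg, hchv]
        split_ifs <;> ring
      have hβV : β ∈ V (QP P) := by
        rw [mem_V_iff]
        refine ⟨E_mul (rt_mem δ) hw, fun s hs => ?_⟩
        rw [hβ, co_rt_mul δ hw, hcow] at hs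
        have h1 : q ∣ ((star δ s : SF) : ℕ) := by
          by_contra hc
          rw [if_neg hc, mul_zero] at hs
          exact hs rfl
        rw [if_pos h1] at hs
        have h2 : co x (star δ s) ≠ 0 := by
          intro hc; rw [hc] at hs; simp at hs
        have h3 := hxs _ h2
        have h4 : s = star δ (star δ s) := (star_self_left δ s).symm
        have h5 : ¬ q ∣ (s : ℕ) := by
          rw [h4, star_dvd_iff _ _ hqp]
          simp [hqδ, h1]
        refine ⟨?_, fun p hp hps => ?_⟩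
        · rw [h4]; exact star_mod4 hδ.1 h3.1
        · have hpq : p ≠ q := by rintro rfl; exact h5 hps
          have : p ∣ (δ : ℕ) ∨ p ∣ ((star δ s : SF) : ℕ) := by
            rw [h4, star_dvd_iff _ _ hp] at hps
            by_contra hc
            push Not at hc
            exact hps ⟨fun h => absurd h hc.1, fun h => absurd h hc.2⟩
          rcases this with h | h
          · rcases mem_insert.1 (hδ.2 p hp h) with h | h
            · exact absurd h hpq
            · exact h
          · rcases mem_insert.1 (h3.2 p hp h) with h | h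
            · exact absurd h hpq
            · exact h
      obtain ⟨N1, hN1, hN1m⟩ := ih β hβi hβV
      -- `α = δ x - β θ`
      set α := ((δ : ℕ) : ℝ) * x - β * th δ with hα
      have hαi : IsIntegral ℤ α := ((nat_int _).mul hi).sub (hβi.mul (th_int hδ.1))
      have hα2 : α = ((δ : ℕ) : ℚ) • ((1 / 2 : ℚ) • (x + σ x)) - (1 / 2 : ℚ) • β := by
        rw [hα, hβ]
        simp only [Rat.smul_def]
        push_cast
        unfold th
        have := rt_sq δ
        linear_combination (-(x - σ x) / 2) * this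
      have hcou : ∀ s, co (x + σ x) s = if q ∣ (s : ℕ) then 0 else 2 * co x s := by
        intro s
        rw [map_add, Finsupp.add_apply, co_sg, hchv]
        split_ifs <;> ring
      have hu : x + σ x ∈ V (QP P) := by
        rw [mem_V_iff]
        refine ⟨E.add_mem hxE hσE, fun s hs => ?_⟩
        rw [hcou] at hs
        have h1 : ¬ q ∣ (s : ℕ) := by
          intro hc; rw [if_pos hc] at hs; exact hs rfl
        rw [if_neg h1] at hs
        have h2 : co x s ≠ 0 := by
          intro hc; rw [hc] at hs; simp at hs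
        refine ⟨(hxs s h2).1, fun p hp hps => ?_⟩
        rcases mem_insert.1 ((hxs s h2).2 p hp hps) with h | h
        · subst h; exact absurd hps h1
        · exact h
      have hαV : α ∈ V (QP P) := by
        rw [hα2]
        exact (V _).sub_mem ((V _).smul_mem _ ((V _).smul_mem _ hu)) ((V _).smul_mem _ hβV)
      obtain ⟨N2, hN2, hN2m⟩ := ih α hαi hαV
      refine ⟨N1 * N2 * (δ : ℕ), ?_, ?_⟩
      · have h4 : (δ : ℕ) % 2 = 1 := by have := hδ.1; omega
        rw [Nat.mul_mod, Nat.mul_mod N1, hN1, hN2, h4]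
      · have : ((N1 * N2 * (δ : ℕ) : ℕ) : ℝ) * x = N1 * (N2 * α) + N2 * ((N1 * β) * th δ) := by
          rw [hα]; push_cast; ring
        rw [this]
        exact A4.add_mem (A4.mul_mem (natmem _) hN2m)
          (A4.mul_mem (natmem _) (A4.mul_mem hN1m (th_mem hδ.1)))

/-- TARGET -/
theorem star4 {x : ℝ} (hx : x ∈ V (fun s => (s : ℕ) % 4 = 1)) (hi : IsIntegral ℤ x) :
    IsIntegral ℤ ((x ^ 4 - x) / 2) := by
  classical
  rw [mem_V_iff] at hx
  set P : Finset ℕ := (co x).support.biUnion fun s => (s : ℕ).primeFactors with hPdef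
  have hP : ∀ p ∈ P, p.Prime := by
    intro p hp
    rw [hPdef, mem_biUnion] at hp
    obtain ⟨s, -, hs⟩ := hp
    exact Nat.prime_of_mem_primeFactors hs
  have hxP : x ∈ V (QP P) := by
    rw [mem_V_iff]
    refine ⟨hx.1, fun s hs => ⟨hx.2 s hs, fun p hp hps => ?_⟩⟩
    rw [hPdef, mem_biUnion]
    exact ⟨s, Finsupp.mem_support_iff.2 hs, Nat.mem_primeFactors.2 ⟨hp, hps, s.2.ne_zero⟩⟩
  obtain ⟨N, hN, hNm⟩ := main_ind P hP x hi hxP
  obtain ⟨w, hw, hwe⟩ := A4_frob hNm
  obtain ⟨j, hj⟩ : ∃ j, N = 2 * j + 1 := ⟨N / 2, by omega⟩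
  obtain ⟨j', hj'⟩ : ∃ j', N ^ 4 = 2 * j' + 1 := by
    have : (N ^ 4) % 2 = 1 := by rw [Nat.pow_mod, hN]
    exact ⟨N ^ 4 / 2, by omega⟩
  have h1 : (N : ℝ) = 2 * j + 1 := by exact_mod_cast hj
  have h2 : (N : ℝ) ^ 4 = 2 * j' + 1 := by exact_mod_cast hj'
  have h3 : (x ^ 4 - x) / 2 = w - j' * x ^ 4 + j * x := by
    rw [mul_pow] at hwe
    linear_combination hwe / 2 - x ^ 4 / 2 * h2 + x / 2 * h1
  rw [h3]
  exact ((A4_int hw).sub ((nat_int _).mul (hi.pow 4))).add ((nat_int _).mul hi)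

end Pool.Agent.H716MQ
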